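import Mathlib

set_option autoImplicit false
open Filter Finset

namespace Pool.Agent.H.MP_c7fa75_pr

noncomputable def uu (c : ℕ) : ℝ := if c = 1 then 0 else if c = 0 then 1 / 2 else 1 / 4

noncomputable def walk (e : ℤ → ℕ → ℝ) (c : ℕ → ℕ) : ℕ → ℤ
  | 0 => 0
  | n + 1 => walk e c n + if uu (c n) < e (walk e c n)
      (univ.filter fun m : Fin n => walk e c m = walk e c n).card then 1 else -1
  termination_by n => n
  decreasing_by all_goals omega

def cnt (p : ℕ → ℤ) (n : ℕ) : ℕ := ((range n).filter fun m => p m = p n).card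

theorem walk_zero (e : ℤ → ℕ → ℝ) (c : ℕ → ℕ) : walk e c 0 = 0 := by rw [walk]

theorem walk_succ (e : ℤ → ℕ → ℝ) (c : ℕ → ℕ) (n : ℕ) : walk e c (n + 1) = walk e c n
    + if uu (c n) < e (walk e c n) (cnt (walk e c) n) then 1 else -1 := by
  rw [walk, cnt, card_filter, card_filter, Fin.sum_univ_eq_sum_range
    (fun m => if walk e c m = walk e c n then 1 else 0)]

open Classical in
noncomputable def upd (e : ℤ → ℕ → ℝ) (p : ℕ → ℤ) : ℤ → ℕ → ℝ :=
  if Tendsto (fun m => |p m|) atTop atTop then fun x n => e x (n + Nat.card {m : ℕ // p m = x})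
  else fun _ _ => 1 / 2

noncomputable def envG (w : ℤ → ℕ → ℝ) (xs : ℕ → ℕ → ℤ) : ℕ → ℤ → ℕ → ℝ
  | 0 => w
  | j + 1 => upd (envG w xs j) (xs j)

noncomputable def env (w : ℤ → ℕ → ℝ) (c : ℕ → ℕ → ℕ) : ℕ → ℤ → ℕ → ℝ
  | 0 => w
  | j + 1 => upd (env w c j) (walk (env w c j) (c j))

theorem env_eq (w : ℤ → ℕ → ℝ) (c : ℕ → ℕ → ℕ) (xs : ℕ → ℕ → ℤ) (j : ℕ)
    (h : ∀ i < j, xs i = walk (env w c i) (c i)) : env w c j = envG w xs j := by
  induction j with
  | zero => rfl
  | succ j ih => rw [env, envG, ← ih fun i hi => h i (by omega), h j (by omega)]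

def Val (r : ℝ) : Prop := r = 1 ∨ r = 1 / 4 ∨ r = 1 / 2

theorem env_val (w : ℤ → ℕ → ℝ) (c : ℕ → ℕ → ℕ) (hw : ∀ x n, Val (w x n)) (j : ℕ) :
    ∀ x n, Val (env w c j x n) := by
  induction j with
  | zero => exact hw
  | succ j ih =>
    intro x n
    simp only [env, upd]
    split_ifs
    exacts [ih _ _, Or.inr (Or.inr rfl)]

section
variable {Θ : Type} {mΘ : MeasurableSpace Θ}

theorem meas_ev {e : Θ → ℤ → ℕ → ℝ} {a : Θ → ℤ} {b : Θ → ℕ} (he : Measurable e) (ha : Measurable a)
    (hb : Measurable b) : Measurable fun θ => e θ (a θ) (b θ) := by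
  have : Measurable fun q : (ℤ → ℕ → ℝ) × (ℤ × ℕ) => q.1 q.2.1 q.2.2 :=
    measurable_from_prod_countable_left fun y => (measurable_pi_apply y.2).comp (measurable_pi_apply y.1)
  exact this.comp (he.prodMk (ha.prodMk hb))

theorem meas_cnt {p : Θ → ℕ → ℤ} (n : ℕ) (hp : ∀ m ≤ n, Measurable fun θ => p θ m) :
    Measurable fun θ => cnt (p θ) n := by
  simp only [cnt, card_filter]
  exact Finset.measurable_sum _ fun m hm => Measurable.ite
    (measurableSet_eq_fun (hp m (mem_range.mp hm).le) (hp n le_rfl)) measurable_const measurable_const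

theorem meas_walk {e : Θ → ℤ → ℕ → ℝ} {c : Θ → ℕ → ℕ} (he : Measurable e) (n : ℕ)
    (hc : ∀ t < n, Measurable fun θ => c θ t) :
    ∀ m ≤ n, Measurable fun θ => walk (e θ) (c θ) m := by
  induction n with
  | zero => intro m hm; obtain rfl : m = 0 := by omega
            simp [walk_zero]
  | succ n ih =>
    have ih' := ih fun t ht => hc t (by omega)
    intro m hm
    rcases hm.lt_or_eq with h | rfl
    · exact ih' m (by omega)
    simp only [walk_succ]
    exact (ih' n le_rfl).add (Measurable.ite (measurableSet_lt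
      ((Measurable.of_discrete (f := uu)).comp (hc n (by omega)))
      (meas_ev he (ih' n le_rfl) (meas_cnt n ih'))) measurable_const measurable_const)

theorem meas_upd {e : Θ → ℤ → ℕ → ℝ} {p : Θ → ℕ → ℤ} (he : Measurable e) (hp : Measurable p) :
    Measurable fun θ => upd (e θ) (p θ) := by
  refine Measurable.ite (measurableSet_tendsto _ fun m => by fun_prop) ?_ measurable_const
  refine measurable_pi_lambda _ fun x => measurable_pi_lambda _ fun n =>
    meas_ev he measurable_const (measurable_const.add ?_)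
  exact measurable_ncard.comp (f := fun θ => {m | p θ m = x})
    (measurable_set_iff.mpr fun m => by simp only [Set.mem_ofPred_eq]; fun_prop)

theorem meas_envG {w : Θ → ℤ → ℕ → ℝ} {xs : Θ → ℕ → ℕ → ℤ} (hw : Measurable w) (j : ℕ)
    (h : ∀ i, Measurable fun θ => xs θ i) : Measurable fun θ => envG (w θ) (xs θ) j := by
  induction j with
  | zero => exact hw
  | succ j ih => exact meas_upd ih (h j)

theorem meas_env {w : Θ → ℤ → ℕ → ℝ} {c : Θ → ℕ → ℕ → ℕ} (hw : Measurable w) (j : ℕ)
    (h : ∀ i < j, ∀ t, Measurable fun θ => c θ i t) : Measurable fun θ => env (w θ) (c θ) j := by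
  induction j with
  | zero => exact hw
  | succ j ih =>
    have := ih fun i hi => h i (by omega)
    exact meas_upd this (measurable_pi_lambda _ fun m =>
      meas_walk this m (fun t _ => h j (by omega) t) m le_rfl)

end

theorem barrier (e : ℤ → ℕ → ℝ) (c : ℕ → ℕ) (b : ℤ) (M t : ℕ) (hb : ∀ n < M, e b n = 1)
    (ht : b ≤ walk e c t) : ∀ s, t ≤ s → s ≤ M → b ≤ walk e c s := by
  intro s hs
  induction s, hs using Nat.le_induction with
  | base => exact fun _ => ht
  | succ s hs ih =>
    intro h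
    have h1 := ih (by omega)
    rw [walk_succ]
    split_ifs with h2
    · omega
    · rcases h1.lt_or_eq with h3 | h3
      · omega
      · rw [← h3, hb (cnt (walk e c) s)
          (lt_of_le_of_lt ((card_filter_le _ _).trans (card_range s).le) h)] at h2
        exact absurd (by unfold uu; split_ifs <;> norm_num) h2

theorem run (e : ℤ → ℕ → ℝ) (c : ℕ → ℕ) (he : ∀ x n, Val (e x n)) (t D : ℕ)
    (h : ∀ i < D, c (t + i) = 1) : walk e c (t + D) = walk e c t + D := by
  induction D with
  | zero => simp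
  | succ D ih =>
    rw [← add_assoc, walk_succ, ih fun i hi => h i (by omega), h D (by omega), if_pos]
    · push_cast; ring
    · rcases he (walk e c t + D) (cnt (walk e c) (t + D)) with h | h | h <;> rw [h] <;> simp [uu]

def ll (k : ℕ) : ℕ := 8 ^ (k + 2)
def DD (k : ℕ) : ℕ := 2 * ll (k + 1)
def RR (k : ℕ) : ℕ := 4 ^ DD k * 4 ^ (k + 2)
def TT : ℕ → ℕ
  | 0 => 0
  | k + 1 => TT k + RR k * DD k

theorem trans (e : ℤ → ℕ → ℝ) (c : ℕ → ℕ) (he : ∀ x n, Val (e x n))
    (hb : ∀ k, ∃ i < ll k, ∀ n < TT (k + 1), e (2 * ll k - 128 - i) n = 1)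
    (hr : ∀ k, ∃ r < RR k, ∀ i < DD k, c (TT k + r * DD k + i) = 1) :
    Tendsto (fun n => |walk e c n|) atTop atTop := by
  choose b hb1 hb2 using hb
  have hT : ∀ k, TT k + 1 ≤ TT (k + 1) := fun k => by
    have : 0 < RR k * DD k := by unfold RR DD ll; positivity
    simp only [TT]; omega
  have h1 : ∀ k, 2 * (ll k : ℤ) - 128 - b k ≤ walk e c (TT k) := by
    intro k
    induction k with
    | zero => simp [TT, walk_zero, ll]
    | succ k ih =>
      obtain ⟨r, hr1, hr2⟩ := hr k
      have h2 : TT k + r * DD k + DD k ≤ TT (k + 1) := by simp only [TT]; nlinarith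
      have h3 := barrier e c _ _ _ (hb2 k) ih (TT k + r * DD k) (by omega) (by omega)
      refine barrier e c _ _ (TT k + r * DD k + DD k) (hb2 (k + 1)) ?_ _ h2 (by linarith [hT (k + 1)])
      rw [run e c he _ _ hr2]
      have := hb1 k
      have e1 : DD k = 2 * ll (k + 1) := rfl
      have e2 : 128 ≤ ll (k + 1) := le_trans (by norm_num)
        (Nat.pow_le_pow_right (n := 8) (by norm_num) (show 3 ≤ k + 1 + 2 by omega))
      have e3 : ll (k + 1) = 8 * ll k := by simp only [ll]; ring
      omega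
  have h2 : ∀ k s, TT k ≤ s → ∃ j, k ≤ j ∧ TT j ≤ s ∧ s ≤ TT (j + 1) := by
    intro k s hs
    induction s, hs using Nat.le_induction with
    | base => exact ⟨k, le_rfl, le_rfl, by linarith [hT k]⟩
    | succ s hs ih =>
      obtain ⟨j, a1, a2, a3⟩ := ih
      rcases a3.lt_or_eq with h | h
      · exact ⟨j, a1, by omega, h⟩
      · exact ⟨j + 1, by omega, by omega, h ▸ hT (j + 1)⟩
  refine tendsto_atTop_atTop.mpr fun K => ⟨TT (K.toNat + 128), fun s hs => ?_⟩
  obtain ⟨j, a1, a2, a3⟩ := h2 _ s hs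
  have h3 := barrier e c _ _ _ (hb2 j) (h1 j) s a2 a3
  have h4 := hb1 j
  have h5 : j + 2 < ll j := Nat.lt_pow_self (by norm_num)
  exact le_trans (by omega) (le_abs_self _)

end Pool.Agent.H.MP_c7fa75_pr
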