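import Mathlib
import Pool.Agent.H.MP_c7fa75_pr.Walk

set_option autoImplicit false
open Filter Finset MeasureTheory ProbabilityTheory
open scoped ENNReal

namespace Pool.Agent.H.MP_c7fa75_pr

abbrev II := ℤ ⊕ ℕ × ℕ
abbrev Th := II → ℕ

noncomputable def nu : Measure ℕ := geometricMeasure ⟨1 / 2, by norm_num, by norm_num⟩
instance : IsProbabilityMeasure nu := by unfold nu; infer_instance
noncomputable def mu : Measure Th := Measure.infinitePi fun _ => nu
instance : IsProbabilityMeasure mu := by unfold mu; infer_instance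

theorem nu_val (n : ℕ) : nu.real {n} = (1 / 2) ^ (n + 1) := by
  rw [nu, geometricMeasure_real_singleton (by simp [Subtype.ext_iff])]
  norm_num [pow_succ]

@[reducible] def GG (S : Set II) : MeasurableSpace Th := ⨆ i ∈ S, MeasurableSpace.comap (fun θ => θ i) inferInstance

theorem GG_meas {S : Set II} {i : II} (h : i ∈ S) : Measurable[GG S] fun θ : Th => θ i :=
  measurable_iff_comap_le.mpr (le_iSup₂ (f := fun i (_ : i ∈ S) =>
    MeasurableSpace.comap (fun θ : Th => θ i) inferInstance) i h)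

theorem ind {S T : Set II} (h : Disjoint S T) {A B : Set Th} (hA : MeasurableSet[GG S] A)
    (hB : MeasurableSet[GG T] B) : mu.real (A ∩ B) = mu.real A * mu.real B := by
  have := (Indep_iff _ _ _).mp (indep_iSup_of_disjoint (fun i => (measurable_pi_apply i).comap_le)
    (iIndepFun_infinitePi (P := fun _ : II => nu) (X := fun _ x => x) fun _ => measurable_id).iIndep h)
    A B hA hB
  simp only [measureReal_def, mu, this, ENNReal.toReal_mul]

theorem coord (i : II) (s : Set ℕ) : mu.real {θ | θ i ∈ s} = nu.real s := by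
  rw [← Measure.infinitePi_map_eval (fun _ : II => nu) i, map_measureReal_apply
    (measurable_pi_apply i) (MeasurableSet.of_discrete)]
  rfl

theorem block (f : ℕ → II) (hf : Function.Injective f) (g D : ℕ) :
    mu.real {θ | ∀ i < D, θ (f i) = g} = ((1 / 2) ^ (g + 1)) ^ D := by
  induction D with
  | zero => simp
  | succ D ih =>
    rw [show {θ : Th | ∀ i < D + 1, θ (f i) = g} = {θ | ∀ i < D, θ (f i) = g} ∩ {θ | θ (f D) ∈ ({g} : Set ℕ)}
      from Set.ext fun θ => Nat.forall_lt_succ_right, ind (S := {f D}ᶜ) (T := {f D}) disjoint_compl_left,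
      ih, coord, nu_val, ← pow_succ]
    · simp only [Set.ofPred_forall]
      exact MeasurableSet.iInter fun i => MeasurableSet.iInter fun hi =>
        GG_meas (by simpa [hf.eq_iff] using hi.ne) (measurableSet_singleton g)
    · exact GG_meas (S := {f D}) (Set.mem_singleton _) (measurableSet_singleton g)

theorem blocks (f : ℕ → ℕ → II) (D g : ℕ) (hf : ∀ r, Function.Injective (f r))
    (hf' : ∀ r s, r < s → ∀ i < D, ∀ k < D, f r i ≠ f s k) (R : ℕ) :
    mu.real {θ | ∀ r < R, ¬ ∀ i < D, θ (f r i) = g} = (1 - ((1 / 2) ^ (g + 1)) ^ D) ^ R := by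
  have hm : ∀ (S : Set II) (r : ℕ), (∀ i < D, f r i ∈ S) →
      MeasurableSet[GG S] {θ : Th | ∀ i < D, θ (f r i) = g} := fun S r h => by
    simp only [Set.ofPred_forall]
    exact MeasurableSet.iInter fun i => MeasurableSet.iInter fun hi =>
      GG_meas (h i hi) (measurableSet_singleton g)
  induction R with
  | zero => simp
  | succ R ih =>
    rw [show {θ : Th | ∀ r < R + 1, ¬ ∀ i < D, θ (f r i) = g} = {θ | ∀ r < R, ¬ ∀ i < D, θ (f r i) = g}
      ∩ {θ | ∀ i < D, θ (f R i) = g}ᶜ from Set.ext fun θ => Nat.forall_lt_succ_right,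
      ind (S := (f R '' Set.Iio D)ᶜ) (T := f R '' Set.Iio D) disjoint_compl_left,
      ih, probReal_compl_eq_one_sub (by measurability), block _ (hf R), ← pow_succ]
    · rw [Set.ofPred_forall]
      refine MeasurableSet.iInter fun r => ?_
      rw [Set.ofPred_forall]
      refine MeasurableSet.iInter fun hr => (hm _ r fun i hi => ?_).compl
      rintro ⟨k, hk, e⟩
      exact hf' r R hr i hi k hk e.symm
    · exact (hm (f R '' Set.Iio D) R fun i hi => ⟨i, hi, rfl⟩).compl

theorem bern (p : ℝ) (h0 : 0 < p) (h1 : p ≤ 1) (R : ℕ) (c : ℝ) (hc : 0 < c) (h : R * p = c) :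
    (1 - p) ^ R ≤ 1 / c := by
  have h2 := one_add_mul_le_pow (show -2 ≤ p by linarith) R
  have h3 : (1 - p) ^ R * (1 + p) ^ R ≤ 1 := by
    rw [← mul_pow]; exact pow_le_one₀ (by nlinarith) (by nlinarith)
  rw [le_div_iff₀ hc]
  nlinarith [mul_le_mul_of_nonneg_left h2 (pow_nonneg (sub_nonneg.mpr h1) R),
    pow_nonneg (sub_nonneg.mpr h1) R]

theorem good : mu {θ | (∀ k, ∃ i < ll k, θ (.inl (2 * ll k - 128 - i)) = k + 1) ∧
    ∀ k, ∃ r < RR k, ∀ i < DD k, θ (.inr (0, TT k + r * DD k + i)) = 1} ≠ 0 := by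
  intro h0
  let A : ℕ → Set Th := fun k => {θ | ∀ r < ll k, ¬ ∀ i < 1,
    θ (if i = 0 then .inl (2 * ll k - 128 - r) else .inr (0, i)) = k + 1}
  let B : ℕ → Set Th := fun k => {θ | ∀ r < RR k, ¬ ∀ i < DD k, θ (.inr (0, TT k + r * DD k + i)) = 1}
  have hA : ∀ k, mu.real (A k) ≤ 1 / 4 ^ (k + 2) := fun k => by
    rw [blocks]
    · refine bern _ (by positivity) (pow_le_one₀ (by positivity) (pow_le_one₀ (by norm_num)
        (by norm_num))) _ _ (by positivity) ?_
      simp only [ll]; push_cast; rw [pow_one, ← mul_pow]; norm_num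
    · intro r i j h
      dsimp only at h
      split_ifs at h <;> simp_all
    · intro r s hrs i hi j hj
      simp [Nat.lt_one_iff.mp hi, Nat.lt_one_iff.mp hj, hrs.ne]
  have hB : ∀ k, mu.real (B k) ≤ 1 / 4 ^ (k + 2) := fun k => by
    rw [blocks]
    · refine bern _ (by positivity) (pow_le_one₀ (by positivity) (pow_le_one₀ (by norm_num)
        (by norm_num))) _ _ (by positivity) ?_
      simp only [RR]; push_cast; rw [mul_right_comm, ← mul_pow]; norm_num
    · intro r i j h; simpa using h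
    · intro r s hrs i hi j hj
      simp only [ne_eq, Sum.inr.injEq, Prod.mk.injEq, true_and]
      nlinarith
  have h1 : mu (⋃ k, A k ∪ B k) ≤ ENNReal.ofReal (∑' k : ℕ, 1 / 8 * (1 / 2) ^ k) := by
    rw [ENNReal.ofReal_tsum_of_nonneg (fun _ => by positivity) (summable_geometric_two.mul_left _)]
    refine (measure_iUnion_le _).trans (ENNReal.tsum_le_tsum fun k => ?_)
    rw [← ofReal_measureReal]
    refine ENNReal.ofReal_le_ofReal ((measureReal_union_le _ _).trans ?_)
    have : (1 : ℝ) / 4 ^ (k + 2) ≤ 1 / 16 * (1 / 2) ^ k := by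
      rw [pow_add, one_div_pow, div_mul_div_comm, mul_comm (16 : ℝ)]
      gcongr <;> norm_num
    linarith [hA k, hB k]
  rw [tsum_mul_left, tsum_geometric_two] at h1
  have h2 := (measure_mono (t := _ ∪ ⋃ k, A k ∪ B k) (s := Set.univ) fun θ _ => ?_).trans
    ((measure_union_le _ _).trans (add_le_add h0.le h1))
  · rw [measure_univ, zero_add, ENNReal.one_le_ofReal] at h2
    norm_num at h2
  · by_contra hc
    simp only [Set.mem_union, Set.mem_iUnion, not_or, not_exists, A, B, Set.mem_ofPred_eq] at hc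
    refine hc.1 ⟨fun k => ?_, fun k => ?_⟩
    · simpa using (hc.2 k).1
    · have := (hc.2 k).2
      push Not at this
      exact this

noncomputable def st (N n : ℕ) : ℝ := if n < N then 1 else if n < 3 * N then 1 / 4 else 1 / 2

theorem st_val (N n : ℕ) : Val (st N n) := by unfold st Val; split_ifs <;> simp

theorem st_sum (N M : ℕ) (h : 3 * N ≤ M) : ∑ i ∈ range M, (2 * st N i - 1) = 0 := by
  obtain ⟨k, rfl⟩ : ∃ k, M = N + 2 * N + k := ⟨M - 3 * N, by omega⟩
  rw [sum_range_add, sum_range_add, sum_congr rfl (g := fun _ => (1 : ℝ)),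
    sum_congr (s₁ := range (2 * N)) rfl (g := fun _ => (-1 / 2 : ℝ)), sum_eq_zero (s := range k)]
  · simp; ring
  · intro i _; rw [st, if_neg (by omega), if_neg (by omega)]; norm_num
  · intro i hi; rw [mem_range] at hi; rw [st, if_neg (by omega), if_pos (by omega)]; norm_num
  · intro i hi; rw [st, if_pos (mem_range.mp hi)]; norm_num

noncomputable def WW (θ : Th) (x : ℤ) : ℕ → ℝ := st (TT (θ (.inl x)))
def cc (θ : Th) (j t : ℕ) : ℕ := θ (.inr (j, t))
noncomputable def EE (j : ℕ) (θ : Th) : ℤ → ℕ → ℝ := env (WW θ) (cc θ) j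
noncomputable def XX (j : ℕ) (θ : Th) : ℕ → ℤ := walk (EE j θ) (cc θ j)

theorem WW_meas {S : Set II} (h : ∀ x, .inl x ∈ S) : Measurable[GG S] WW :=
  @measurable_pi_lambda _ _ _ (GG S) _ _ fun x =>
    (Measurable.of_discrete (f := fun g => st (TT g))).comp (GG_meas (h x))

theorem GG_le (S : Set II) : GG S ≤ MeasurableSpace.pi :=
  iSup₂_le fun i _ => (measurable_pi_apply i).comap_le

theorem XX_meas {S : Set II} (h : ∀ x, .inl x ∈ S) (j n : ℕ) (h1 : ∀ i < j, ∀ t, .inr (i, t) ∈ S)
    (h2 : ∀ t < n, .inr (j, t) ∈ S) : Measurable[GG S] fun θ => XX j θ n :=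
  meas_walk (meas_env (WW_meas h) j fun i hi t => GG_meas (h1 i hi t)) n
    (fun t ht => GG_meas (h2 t ht)) n le_rfl

theorem uu_prob (i : II) (v : ℝ) (hv : Val v) : mu.real {θ | uu (θ i) < v} = v := by
  rcases hv with rfl | rfl | rfl
  · rw [Set.eq_univ_of_forall (s := {θ : Th | uu (θ i) < 1}) fun θ => by
      simp only [Set.mem_ofPred_eq, uu]; split_ifs <;> norm_num]
    simp
  · rw [show {θ : Th | uu (θ i) < 1 / 4} = {θ | θ i ∈ ({1} : Set ℕ)} from Set.ext fun θ => by
      simp only [Set.mem_ofPred_eq, uu]; split_ifs <;> simp_all <;> norm_num, coord, nu_val]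
    norm_num
  · rw [show {θ : Th | uu (θ i) < 1 / 2} = {θ | θ i ∈ ({0} : Set ℕ)ᶜ} from Set.ext fun θ => by
      simp only [Set.mem_ofPred_eq, uu]; split_ifs <;> simp_all <;> norm_num, coord,
      probReal_compl_eq_one_sub (measurableSet_singleton _), nu_val]
    norm_num

theorem int_eq (i : II) (Z : Th → ℝ) (hZ : Measurable[GG {i}ᶜ] Z) (hv : ∀ θ, Val (Z θ))
    (s : Set Th) (hs : MeasurableSet[GG {i}ᶜ] s) :
    ∫ θ in s, Z θ ∂mu = ∫ θ in s, Set.indicator {θ | uu (θ i) < Z θ} (fun _ => (1 : ℝ)) θ ∂mu := by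
  have hm : ∀ v, MeasurableSet[GG {i}ᶜ] (s ∩ {θ | Z θ = v}) := fun v =>
    hs.inter (hZ (measurableSet_singleton v))
  have hu : ∀ v, MeasurableSet[GG {i}] {θ : Th | uu (θ i) < v} := fun v =>
    GG_meas (S := {i}) rfl (MeasurableSet.of_discrete (s := {c | uu c < v}))
  rw [← integral_indicator (GG_le _ _ hs), ← integral_indicator (GG_le _ _ hs)]
  have e1 : s.indicator Z = fun θ => ∑ v ∈ ({1, 1 / 4, 1 / 2} : Finset ℝ),
      (s ∩ {θ | Z θ = v}).indicator (fun _ => v) θ := by
    funext θ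
    by_cases h : θ ∈ s
    · rcases hv θ with e | e | e <;> simp [Set.indicator, h, e] <;> norm_num
    · simp [Set.indicator, h]
  have e2 : s.indicator (Set.indicator {θ | uu (θ i) < Z θ} fun _ => (1 : ℝ))
      = fun θ => ∑ v ∈ ({1, 1 / 4, 1 / 2} : Finset ℝ),
      (s ∩ {θ | Z θ = v} ∩ {θ | uu (θ i) < v}).indicator (fun _ => (1 : ℝ)) θ := by
    funext θ
    by_cases h : θ ∈ s
    · rw [sum_eq_single (Z θ)]
      · simp [Set.indicator, h]
      · intro v _ hv; simp [Set.indicator, Ne.symm hv]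
      · intro h'; rcases hv θ with e | e | e <;> simp [e] at h'
    · simp [Set.indicator, h]
  rw [e1, e2, integral_finsetSum _ fun v _ => (integrable_const _).indicator (GG_le _ _ (hm v)),
    integral_finsetSum _ fun v _ => (integrable_const _).indicator
      ((GG_le _ _ (hm v)).inter (GG_le _ _ (hu v)))]
  refine sum_congr rfl fun v hv' => ?_
  rw [integral_indicator_const _ (GG_le _ _ (hm v)), integral_indicator_const _
    ((GG_le _ _ (hm v)).inter (GG_le _ _ (hu v))), ind disjoint_compl_left (hm v) (hu v),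
    uu_prob i v (by simpa [Val] using hv')]
  simp

theorem cond (j n : ℕ) : condExp (MeasurableSpace.comap
      (fun θ => (WW θ, (fun i : Fin j => XX (i : ℕ) θ), (fun m : Fin (n + 1) => XX j θ (m : ℕ))))
      inferInstance) mu (Set.indicator {θ | XX j θ (n + 1) = XX j θ n + 1} (fun _ => (1 : ℝ)))
    =ᵐ[mu] fun θ => EE j θ (XX j θ n) ((range n).filter (fun m => XX j θ m = XX j θ n)).card := by
  set Y := fun θ => (WW θ, (fun i : Fin j => XX (i : ℕ) θ), (fun m : Fin (n + 1) => XX j θ (m : ℕ)))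
  have hY : Measurable[GG {.inr (j, n)}ᶜ] Y := by
    refine (WW_meas (by simp)).prodMk (Measurable.prodMk ?_ ?_)
    · exact @measurable_pi_lambda _ _ _ (GG _) _ _ fun i => @measurable_pi_lambda _ _ _ (GG _) _ _
        fun t => XX_meas (by simp) _ _ (fun k hk t => by simp; omega) fun t _ => by simp; omega
    · exact @measurable_pi_lambda _ _ _ (GG _) _ _ fun m =>
        XX_meas (by simp) _ _ (fun k hk t => by simp; omega) fun t _ => by simp; omega
  have hle := measurable_iff_comap_le.mp hY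
  let Φ : (ℤ → ℕ → ℝ) × (Fin j → ℕ → ℤ) × (Fin (n + 1) → ℤ) → ℝ := fun q =>
    envG q.1 (fun i => if h : i < j then q.2.1 ⟨i, h⟩ else 0) j (q.2.2 (Fin.last n))
      (cnt (fun m => if h : m < n + 1 then q.2.2 ⟨m, h⟩ else 0) n)
  have hΦ : Measurable Φ := by
    refine meas_ev (meas_envG measurable_fst j fun i => ?_) (by fun_prop) (meas_cnt n fun m hm => ?_)
    · split_ifs <;> fun_prop
    · split_ifs <;> fun_prop
  have e : (fun θ => EE j θ (XX j θ n) ((range n).filter (fun m => XX j θ m = XX j θ n)).card)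
      = Φ ∘ Y := by
    funext θ
    simp only [Φ, Y, Function.comp, EE, cnt]
    rw [env_eq _ _ (fun i => if h : i < j then XX i θ else 0) j fun i hi => by rw [dif_pos hi]; rfl]
    congr 2
    exact filter_congr fun m hm => by
      rw [dif_pos (by rw [mem_range] at hm; omega), dif_pos (Nat.lt_succ_self n)]
  have hZ : Measurable[MeasurableSpace.comap Y inferInstance] (Φ ∘ Y) :=
    hΦ.comp (Measurable.of_comap_le le_rfl)
  have hv : ∀ θ, Val ((Φ ∘ Y) θ) := fun θ => by
    rw [← e]; exact env_val _ _ (fun _ _ => st_val _ _) _ _ _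
  have e2 : {θ | XX j θ (n + 1) = XX j θ n + 1} = {θ | uu (θ (.inr (j, n))) < (Φ ∘ Y) θ} := by
    ext θ
    rw [← e]
    simp only [Set.mem_ofPred_eq, XX, walk_succ, cnt, cc]
    split_ifs with h <;> simp [h]
  have hZ' := hZ.mono (hle.trans (GG_le _)) le_rfl
  rw [e, e2]
  refine (ae_eq_condExp_of_forall_setIntegral_eq (hle.trans (GG_le _))
    ((integrable_const _).indicator (measurableSet_lt
      ((Measurable.of_discrete (f := uu)).comp (measurable_pi_apply _)) hZ'))
    (fun s _ _ => (Integrable.of_bound hZ'.aestronglyMeasurable 1 (ae_of_all _ fun θ => ?_)).integrableOn)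
    (fun s hs _ => int_eq _ _ (hZ.mono hle le_rfl) hv s (hle s hs))
    hZ.stronglyMeasurable.aestronglyMeasurable).symm
  rcases hv θ with h | h | h <;> rw [h] <;> norm_num

end Pool.Agent.H.MP_c7fa75_pr
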